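import Pool.Agent.Y194.MU.Rpair

/-!
# The `μ`-types of class groups in towers of `p`-extensions

Let `k` be an imaginary quadratic field, `K₀/k` a finite abelian extension, `p` a prime and `E_n` the layers of the
cyclotomic `ℤ_p`-extension of `k`. Let

  `K₀ = L_0 ⊆ L_1 ⊆ L_2 ⊆ …`

be finite extensions such that `L_{r+1}/L_r` is Galois of `p`-power degree and the `L_r` are linearly disjoint from the
cyclotomic `ℤ_p`-extension, for instance abelian extensions `L_r/k` with `[L_r : K₀]` a power of `p`: layers of
the composite of `K₀` with the anticyclotomic `ℤ_p`-extension or any other one, ray class fields. Ramification is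
allowed: only finitely many places ramify in `L_{r+1}/L_r`, and each of them has finitely many extensions to
`L_r^cyc`. Let `⨁_i Λ/p^{m_i(r)}` be the `μ`-part of the Iwasawa module `X(L_r) = lim A(L_r E_n)`. Q1 asserts
that there are no `m_i(r)` at all. By class field theory the number `N_r(n, k)` of the homomorphisms
`Gal(Ω/L_r E_n) → ℤ/p^k` which kill all the inertia groups is `|A(L_r E_n)/p^k|`, and

  `log_p N_r(n, k) / p^n → ∑_i min(k, m_i(r))`   for all `k`   (so `a_r = 0` here).

Theorem.

1. For each `j` the sequence `∑_i (1 - p^{-min(j, m_i(r))}) / [L_r : k]` does not increase with `r`; the same holds for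
   `∑_i (1 - p^{-m_i(r)}) / [L_r : k]`.
2. For each `j ≥ 1` the number of the summands `Λ/p^j` of `X(L_r)`, divided by `[L_r : k]`, converges for `r → ∞`.

If there are no `m_i(0)`, part 1 is Iwasawa's theorem (the first known item of the problem file). In general, for `j = 1`,
it says that the number of the summands grows at most like the degree. For `j > 1` it is a new restriction for
hypothetical positive `μ`-invariants (`μ` itself need not satisfy such an inequality, only the weights
`1 - p^{-min(j, m)}` do). By 2, in an infinite pro-`p` tower of abelian extensions of `k` the distribution of the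
exponents converges.

The assertions are proved for arbitrary number fields, arbitrary towers `E_n`, arbitrary towers `L_r` of `p`-extensions with
`o([E_n : K])` ramified places, and for class groups modulo the classes of the places above a set `T` (`T = ∅`
above).
-/

set_option autoImplicit false

open IsDedekindDomain NumberField Filter Topology Pool.Agent.Y194.TS Pool.Agent.Y194.MU

namespace Pool.Agent.Results.MP_b78433_nt.TypesInAbelianTowers

section

variable {K Ω : Type} [Field K] [Field Ω] [Algebra K Ω]

/-- a tower of Galois extensions `L_{r+1}/L_r` of `p`-power degree, linearly disjoint from the fields `E_n`, such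
that `o([E_n : K])` places of `L_r E_n` are exceptional in `L_{r+1} E_n` (they ramify or, if they lie above `T`, do not split
completely) -/
structure Tower (p : ℕ) (T : Set (HeightOneSpectrum (𝓞 K)))
    (L E : ℕ → IntermediateField K Ω) : Prop where
  finite : ∀ r, FiniteDimensional K (L r)
  le : ∀ r, L r ≤ L (r + 1)
  galois : ∀ r, ((L (r + 1)).fixingSubgroup.subgroupOf (L r).fixingSubgroup).Normal
  degree : ∀ r, ∃ e, Module.finrank K (L (r + 1)) = p ^ e * Module.finrank K (L r)
  finiteE : ∀ n, FiniteDimensional K (E n)
  disjoint : ∀ r n, Module.finrank K (L r ⊔ E n : IntermediateField K Ω) =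
    Module.finrank K (L r) * Module.finrank K (E n)
  few : ∀ r, ∃ t : ℕ → ℕ,
    Tendsto (fun n => (t n : ℝ) / Module.finrank K (E n)) atTop (𝓝 0) ∧
    ∀ n, FewPlaces T (L r ⊔ E n).fixingSubgroup (L (r + 1) ⊔ E n).fixingSubgroup (t n)

/-- the number `N(n, k)` of the homomorphisms `Gal(Ω/F E_n) → ℤ/p^k` killing the local groups is finite and
`log_p N(n, k) / [E_n : K]` converges to `a k + ∑ min(k, v_i)` for all `k` -/
def TypeAt (p : ℕ) (T : Set (HeightOneSpectrum (𝓞 K))) (E : ℕ → IntermediateField K Ω)
    (F : IntermediateField K Ω) (a : ℕ) (v : Multiset ℕ) : Prop :=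
  (∀ n k, Finite (LChars T (F ⊔ E n).fixingSubgroup (p ^ k))) ∧
    Density p (fun n => Module.finrank K (E n))
      (fun n k => Nat.card (LChars T (F ⊔ E n).fixingSubgroup (p ^ k))) a v

end

theorem result {K Ω : Type} [Field K] [NumberField K] [Field Ω] [Algebra K Ω] [IsAlgClosure K Ω]
    {p : ℕ} [Fact p.Prime] {T : Set (HeightOneSpectrum (𝓞 K))}
    {L E : ℕ → IntermediateField K Ω} (hL : Tower p T L E) {a : ℕ → ℕ} {v : ℕ → Multiset ℕ}
    (hv : ∀ r, TypeAt p T E (L r) (a r) (v r)) :
    (∀ j, Antitone fun r => trunc p j (a r) (v r) / Module.finrank K (L r)) ∧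
    (Antitone fun r => full p (a r) (v r) / Module.finrank K (L r)) ∧
    ∀ j, 1 ≤ j → ∃ l : ℝ,
      Tendsto (fun r => (Multiset.count j (v r) : ℝ) / Module.finrank K (L r)) atTop (𝓝 l) := by
  have hgal : IsGalois K Ω := IsAlgClosure.isGalois K Ω
  have hpos : ∀ r, (0 : ℝ) < Module.finrank K (L r) := fun r => by
    have := hL.finite r
    exact_mod_cast Module.finrank_pos
  have step : ∀ r, ∃ e, (Module.finrank K (L (r + 1)) : ℝ) = (p : ℝ) ^ e *
      Module.finrank K (L r) ∧ (∀ j, trunc p j (a (r + 1)) (v (r + 1)) ≤
        (p : ℝ) ^ e * trunc p j (a r) (v r)) ∧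
      full p (a (r + 1)) (v (r + 1)) ≤ (p : ℝ) ^ e * full p (a r) (v r) := by
    intro r
    obtain ⟨e, he⟩ := hL.degree r
    have i1 := hL.finite (r + 1)
    obtain ⟨t, ht, hfew⟩ := hL.few r
    refine ⟨e, by exact_mod_cast he, ?_⟩
    exact ram_pair T (hL.le r) (hL.galois r) E hL.finiteE
      (fun n => by rw [hL.disjoint, hL.disjoint, he, mul_assoc]) ht hfew (hv r).1 (hv (r + 1)).1
      (hv r).2 (hv (r + 1)).2
  have hj : ∀ j, Antitone fun r => trunc p j (a r) (v r) / Module.finrank K (L r) := by
    intro j
    refine antitone_nat_of_succ_le fun r => ?_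
    obtain ⟨e, h1, h2, -⟩ := step r
    rw [div_le_div_iff₀ (hpos (r + 1)) (hpos r), h1]
    calc trunc p j (a (r + 1)) (v (r + 1)) * Module.finrank K (L r)
        ≤ ((p : ℝ) ^ e * trunc p j (a r) (v r)) * Module.finrank K (L r) :=
          mul_le_mul_of_nonneg_right (h2 j) (hpos r).le
      _ = _ := by ring
  refine ⟨hj, ?_, fun j hj1 => ?_⟩
  · refine antitone_nat_of_succ_le fun r => ?_
    obtain ⟨e, h1, -, h2⟩ := step r
    rw [div_le_div_iff₀ (hpos (r + 1)) (hpos r), h1]
    calc full p (a (r + 1)) (v (r + 1)) * Module.finrank K (L r)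
        ≤ ((p : ℝ) ^ e * full p (a r) (v r)) * Module.finrank K (L r) :=
          mul_le_mul_of_nonneg_right h2 (hpos r).le
      _ = _ := by ring
  · obtain ⟨j, rfl⟩ := Nat.exists_eq_add_of_le' hj1
    exact seq_conv hj j

end Pool.Agent.Results.MP_b78433_nt.TypesInAbelianTowers
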